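import Pool.Agent.H57.CM.Targets

/-! Row HVR: Urysohn spaces with finitely many real distances. -/

set_option autoImplicit false

namespace Pool.Agent.H84.CM

open Pool.Agent.H57.CM Pool.Agent.H72.CH
open Pool.Agent.H53.GC (strOn sigOf)

theorem pf_HVR (hRAS : T_RAS) (hHVM : T_HVM) : T_HVR := by
  intro V _ S d hd
  obtain ⟨p, hp1, hp2, hp3, hp4⟩ := hRAS V S d hd
  obtain ⟨x0⟩ := hd.ne
  have h0 : (0 : ℝ) ∈ S := by
    have h := hd.val x0 x0
    rwa [(hd.eq x0 x0).2 rfl] at h
  let iz : Zero S := ⟨⟨0, h0⟩⟩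
  let ia : Add S := ⟨p⟩
  let inst : AddCommMonoid S :=
    { ia, iz with
      add_assoc := hp3
      zero_add := hp4 ⟨0, h0⟩ rfl
      add_zero := fun a => (hp2 a ⟨0, h0⟩).trans (hp4 ⟨0, h0⟩ rfl a)
      add_comm := hp2
      nsmul := nsmulRec }
  have key : ∀ a b c : S, c ≤ a + b ↔ (c : ℝ) ≤ a + b := fun a b c => (hp1 a b c).symm
  have hz : ∀ a : S, a = 0 ↔ (a : ℝ) = 0 := by
    intro a
    constructor
    · intro h; rw [h]; rfl
    · intro h; exact Subtype.ext h
  have : DM S :=
    { fin := inferInstance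
      zero_le := fun a => hd.pos a.1 a.2
      mono := by
        intro a b c hab
        rw [key b c (a + c)]
        have h1 := (key a c (a + c)).1 le_rfl
        have h2 : (a : ℝ) ≤ b := hab
        linarith }
  let d' : V → V → S := fun x y => ⟨d x y, hd.val x y⟩
  have hU : Ury d' :=
    { met :=
        { eq := fun x y => (hz (d' x y)).trans (hd.eq x y)
          sym := fun x y => Subtype.ext (hd.sym x y)
          tri := fun x y z => (key (d' x y) (d' y z) (d' x z)).2 (hd.tri x y z) }
      ne := hd.ne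
      ext := by
        intro F f hf h
        obtain ⟨z, hzz⟩ := hd.ext F (fun x => (f x : ℝ))
          (fun x hx => ⟨(f x).2, fun h1 => hf x hx ((hz (f x)).2 h1)⟩)
          (fun x hx y hy => ⟨(key (f y) (d' x y) (f x)).1 (h x hx y hy).1,
            (key (f x) (f y) (d' x y)).1 (h x hx y hy).2⟩)
        exact ⟨z, fun x hx => Subtype.ext (hzz x hx)⟩ }
  have hHV := hHVM S V d' hU
  have he : mst d' = rst S d := by
    unfold mst rst
    congr 1
    funext s z
    exact propext Subtype.ext_iff
  rw [he] at hHV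
  exact ⟨nl S, ml d', hHV⟩

end Pool.Agent.H84.CM
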